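import Mathlib

set_option autoImplicit false

/-!
# Relative termination of a four-letter string rewriting system

The measure: the letters `c` cut a string into segments. In every segment the letters `d` at its
very beginning are inert. A letter `a` or `b` which has `i` non-inert letters `d` of its segment to
its left gets the weight `4 * 3 ^ i` or `3 ^ i`. The number `3 * (sum of the weights) + (number of
letters d)` is invariant under the rules of `S` and decreases under the rules of `R`.
-/

namespace Pool.Agent.Results.MP_081fbf_lc.RelativeTermination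

/-- The alphabet `{a, b, c, d}`. -/
inductive Letter : Type
  | a | b | c | d

open Letter

/-- One rewrite step of the string rewriting system `T` (a set of rules `(l, r)`):
`x = u l v` and `y = u r v` for some rule `(l, r)` of `T` and some strings `u`, `v`. -/
def Step (T : Set (List Letter × List Letter)) (x y : List Letter) : Prop :=
  ∃ u v l r : List Letter, (l, r) ∈ T ∧ x = u ++ l ++ v ∧ y = u ++ r ++ v

/-- The strict rules `ad → db, a → bbb, d → ε, a → ε, bc → cdd, ac → bbcd`. -/
def R : Set (List Letter × List Letter) :=
  {([a, d], [d, b]), ([a], [b, b, b]), ([d], []), ([a], []), ([b, c], [c, d, d]),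
    ([a, c], [b, b, c, d])}

/-- The non-strict rules `bdb → ad, ad → bdb`. -/
def S : Set (List Letter × List Letter) :=
  {([b, d, b], [a, d]), ([a, d], [b, d, b])}

/-- The measure of a string, read from left to right; `t` tells whether we are among the letters
`d` at the beginning of a segment and `m` is the current weight of a letter `b`. -/
def wt : Bool → ℕ → List Letter → ℕ
  | _, _, [] => 0
  | _, _, c :: w => wt true 1 w
  | true, m, d :: w => 1 + wt true m w
  | false, m, d :: w => 1 + wt false (3 * m) w
  | _, m, a :: w => 12 * m + wt false m w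
  | _, m, b :: w => 3 * m + wt false m w

theorem wt_mono (w : List Letter) : ∀ (t t' : Bool) (m m' : ℕ), m ≤ m' → (t' = true → t = true) →
    wt t m w ≤ wt t' m' w := by
  induction w with
  | nil => intro t t' m m' _ _; simp [wt]
  | cons x w ih =>
    intro t t' m m' hm ht
    cases x with
    | a =>
      have := ih false false m m' hm (fun h => h)
      cases t <;> cases t' <;> simp only [wt] <;> omega
    | b =>
      have := ih false false m m' hm (fun h => h)
      cases t <;> cases t' <;> simp only [wt] <;> omega
    | c => cases t <;> cases t' <;> simp [wt]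
    | d =>
      cases t <;> cases t'
      · have := ih false false (3 * m) (3 * m') (by omega) (fun h => h)
        simp only [wt]; omega
      · simp at ht
      · have := ih true false m (3 * m') (by omega) (fun h => by simp at h)
        simp only [wt]; omega
      · have := ih true true m m' hm (fun h => h)
        simp only [wt]; omega

/-- Strict decrease under the rules of `R` at the beginning of a string. -/
theorem wt_R {l r : List Letter} (h : (l, r) ∈ R) (v : List Letter) (t : Bool) (m : ℕ)
    (hm : 1 ≤ m) : wt t m (r ++ v) < wt t m (l ++ v) := by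
  simp only [R, Set.mem_insert_iff, Prod.mk.injEq, Set.mem_singleton_iff] at h
  have h1 := wt_mono v false false m (3 * m) (by omega) (fun h => h)
  have h2 := wt_mono v true false m m le_rfl (fun h => by simp at h)
  have h3 := wt_mono v false false m m le_rfl (fun h => h)
  rcases h with ⟨rfl, rfl⟩ | ⟨rfl, rfl⟩ | ⟨rfl, rfl⟩ | ⟨rfl, rfl⟩ | ⟨rfl, rfl⟩ | ⟨rfl, rfl⟩ <;>
    cases t <;> simp only [wt, List.cons_append, List.nil_append] <;> omega

/-- Invariance under the rules of `S` at the beginning of a string. -/
theorem wt_S {l r : List Letter} (h : (l, r) ∈ S) (v : List Letter) (t : Bool) (m : ℕ) :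
    wt t m (r ++ v) = wt t m (l ++ v) := by
  simp only [S, Set.mem_insert_iff, Prod.mk.injEq, Set.mem_singleton_iff] at h
  rcases h with ⟨rfl, rfl⟩ | ⟨rfl, rfl⟩ <;>
    cases t <;> simp only [wt, List.cons_append, List.nil_append] <;> ring

/-- Comparison of measures is preserved when a common string is put in front. -/
theorem wt_context (P : ℕ → ℕ → Prop) (hP : ∀ x y k : ℕ, P x y → P (k + x) (k + y))
    (p q : List Letter) (h : ∀ (t : Bool) (m : ℕ), 1 ≤ m → P (wt t m p) (wt t m q))
    (u : List Letter) : ∀ (t : Bool) (m : ℕ), 1 ≤ m → P (wt t m (u ++ p)) (wt t m (u ++ q)) := by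
  induction u with
  | nil => exact h
  | cons x u ih =>
    intro t m hm
    cases x <;> cases t <;> simp only [wt, List.cons_append] <;>
      first
        | exact ih _ _ le_rfl
        | exact hP _ _ _ (ih _ _ (by omega))

theorem step_R {x y : List Letter} (h : Step R x y) : wt true 1 y < wt true 1 x := by
  obtain ⟨u, v, l, r, hr, rfl, rfl⟩ := h
  rw [List.append_assoc, List.append_assoc]
  exact wt_context (fun p q => p < q) (fun x y k hxy => by omega) _ _
    (fun t m hm => wt_R hr v t m hm) u true 1 le_rfl

theorem step_S {x y : List Letter} (h : Step S x y) : wt true 1 y = wt true 1 x := by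
  obtain ⟨u, v, l, r, hr, rfl, rfl⟩ := h
  rw [List.append_assoc, List.append_assoc]
  exact wt_context (fun p q => p = q) (fun x y k hxy => by omega) _ _
    (fun t m _ => wt_S hr v t m) u true 1 le_rfl

theorem step_union {x y : List Letter} (h : Step (R ∪ S) x y) :
    wt true 1 y ≤ wt true 1 x := by
  obtain ⟨u, v, l, r, hr, hx, hy⟩ := h
  rcases hr with hr | hr
  · exact (step_R ⟨u, v, l, r, hr, hx, hy⟩).le
  · exact (step_S ⟨u, v, l, r, hr, hx, hy⟩).le

/-- **`R` is terminating relative to `S`**: in every infinite rewrite sequence of `R ∪ S` only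
finitely many steps are steps of `R`. -/
theorem result : ∀ x : ℕ → List Letter, (∀ n, Step (R ∪ S) (x n) (x (n + 1))) →
    {n : ℕ | Step R (x n) (x (n + 1))}.Finite := by
  intro x hx
  have hanti : Antitone (fun n => wt true 1 (x n)) :=
    antitone_nat_of_succ_le (fun n => step_union (hx n))
  by_contra hinf
  have hinf : {n : ℕ | Step R (x n) (x (n + 1))}.Infinite := hinf
  -- the measure becomes constant
  obtain ⟨N, hN⟩ : ∃ N, ∀ n ≥ N, wt true 1 (x n) = wt true 1 (x N) := by
    obtain ⟨N, hN⟩ := WellFounded.has_min (wellFounded_lt (α := ℕ))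
      (Set.range (fun n => wt true 1 (x n))) ⟨_, 0, rfl⟩
    obtain ⟨⟨k, rfl⟩, h2⟩ := hN
    refine ⟨k, fun n hn => le_antisymm (hanti hn) ?_⟩
    exact not_lt.1 (h2 _ ⟨n, rfl⟩)
  obtain ⟨n, hn, hNn⟩ := hinf.exists_gt N
  have h1 := step_R hn
  have h2 := hN n (le_of_lt hNn)
  have h3 := hN (n + 1) (by omega)
  omega

end Pool.Agent.Results.MP_081fbf_lc.RelativeTermination
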